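import Pool.Agent.U37.MQ.Stm

/-!
# Package INC: elementary facts on inversive planes
-/

set_option autoImplicit false

namespace Pool.Agent.U329.MQ

open Finset Pool.Agent.U37.MQ

open scoped Classical

variable {V : Type}

/-- double counting -/
theorem dc {s : Finset V} {t : Finset (Finset V)} {m k : ℕ}
    (h1 : ∀ z ∈ s, (t.filter fun b => z ∈ b).card = m)
    (h2 : ∀ b ∈ t, (s.filter fun z => z ∈ b).card = k) : s.card * m = t.card * k :=
  Finset.card_mul_eq_card_mul (fun (z : V) (b : Finset V) => z ∈ b) h1 h2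

variable [Fintype V] {n : ℕ} {B : Finset (Finset V)}

theorem ex3 (h : Inversive n B) : ∀ x y z, x ≠ y → x ≠ z → y ≠ z →
    ∃ b ∈ B, x ∈ b ∧ y ∈ b ∧ z ∈ b := by
  intro x y z h1 h2 h3
  obtain ⟨b, ⟨hb, hT⟩, -⟩ := h.2.2 {x, y, z} (card_eq_three.2 ⟨x, y, z, h1, h2, h3, rfl⟩)
  exact ⟨b, hb, hT (by simp), hT (by simp), hT (by simp)⟩

theorem eq3 (h : Inversive n B) : ∀ x y z, x ≠ y → x ≠ z → y ≠ z → ∀ b ∈ B, ∀ c ∈ B,
    x ∈ b → y ∈ b → z ∈ b → x ∈ c → y ∈ c → z ∈ c → b = c := by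
  intro x y z h1 h2 h3 b hb c hc hxb hyb hzb hxc hyc hzc
  obtain ⟨d, -, hd⟩ := h.2.2 {x, y, z} (card_eq_three.2 ⟨x, y, z, h1, h2, h3, rfl⟩)
  rw [hd b ⟨hb, ?_⟩, hd c ⟨hc, ?_⟩]
  · intro w hw
    simp only [mem_insert, mem_singleton] at hw
    rcases hw with rfl | rfl | rfl <;> assumption
  · intro w hw
    simp only [mem_insert, mem_singleton] at hw
    rcases hw with rfl | rfl | rfl <;> assumption

theorem two (h : Inversive n B) : ∀ b ∈ B, ∀ c ∈ B, b ≠ c → (b ∩ c).card ≤ 2 := by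
  intro b hb c hc hne
  by_contra hcon
  push Not at hcon
  obtain ⟨x, hx, y, hy, z, hz, h1, h2, h3⟩ := Finset.two_lt_card.1 hcon
  rw [mem_inter] at hx hy hz
  exact hne (eq3 h x y z h1 h2 h3 b hb c hc hx.1 hy.1 hz.1 hx.2 hy.2 hz.2)

theorem cxy (hn : 2 ≤ n) (h : Inversive n B) : ∀ x y, x ≠ y →
    (B.filter fun b => x ∈ b ∧ y ∈ b).card = n + 1 := by
  intro x y hxy
  have h1 : ((univ.erase x).erase y).card * 1 = (B.filter fun b => x ∈ b ∧ y ∈ b).card * (n - 1) := by
    apply dc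
    · intro z hz
      rw [mem_erase, mem_erase] at hz
      obtain ⟨b, hb, hxb, hyb, hzb⟩ := ex3 h x y z hxy (Ne.symm hz.2.1) (Ne.symm hz.1)
      rw [card_eq_one]
      refine ⟨b, ?_⟩
      ext c
      simp only [mem_filter, mem_singleton]
      constructor
      · rintro ⟨⟨hc, hxc, hyc⟩, hzc⟩
        exact eq3 h x y z hxy (Ne.symm hz.2.1) (Ne.symm hz.1) c hc b hb hxc hyc hzc hxb hyb hzb
      · rintro rfl
        exact ⟨⟨hb, hxb, hyb⟩, hzb⟩
    · intro b hb
      rw [mem_filter] at hb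
      have h2 : (((univ : Finset V).erase x).erase y).filter (fun z => z ∈ b) = (b.erase x).erase y := by
        ext z
        simp only [mem_filter, mem_erase, mem_univ, and_true]
        tauto
      rw [h2, card_erase_of_mem (mem_erase.2 ⟨hxy.symm, hb.2.2⟩), card_erase_of_mem hb.2.1,
        h.2.1 b hb.1]
      omega
  rw [card_erase_of_mem (mem_erase.2 ⟨hxy.symm, mem_univ _⟩), card_erase_of_mem (mem_univ _),
    card_univ, h.1] at h1
  obtain ⟨m, rfl⟩ : ∃ m, n = m + 1 := ⟨n - 1, by omega⟩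
  have h3 : ((m + 1) ^ 2 + 1 - 1 - 1) = (m + 1 + 1) * m := by
    have : (m + 1) ^ 2 = (m + 1 + 1) * m + 1 := by ring
    omega
  rw [h3, mul_one, Nat.add_sub_cancel] at h1
  exact (Nat.eq_of_mul_eq_mul_right (by omega) h1).symm

theorem cx (hn : 2 ≤ n) (h : Inversive n B) : ∀ x,
    (B.filter fun b => x ∈ b).card = n ^ 2 + n := by
  intro x
  have h1 : ((univ : Finset V).erase x).card * (n + 1) = (B.filter fun b => x ∈ b).card * n := by
    apply dc
    · intro y hy
      rw [mem_erase] at hy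
      rw [filter_filter]
      exact cxy hn h x y (Ne.symm hy.1)
    · intro b hb
      rw [mem_filter] at hb
      have h2 : ((univ : Finset V).erase x).filter (fun z => z ∈ b) = b.erase x := by
        ext z
        simp only [mem_filter, mem_erase, mem_univ, and_true]
      rw [h2, card_erase_of_mem hb.2, h.2.1 b hb.1]
      omega
  rw [card_erase_of_mem (mem_univ _), card_univ, h.1, Nat.add_sub_cancel] at h1
  have h3 : n ^ 2 * (n + 1) = (n ^ 2 + n) * n := by ring
  rw [h3] at h1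
  exact (Nat.eq_of_mul_eq_mul_right (by omega) h1).symm

theorem cB (hn : 2 ≤ n) (h : Inversive n B) : B.card = n * (n ^ 2 + 1) := by
  have h1 : (univ : Finset V).card * (n ^ 2 + n) = B.card * (n + 1) := by
    apply dc
    · intro y _
      exact cx hn h y
    · intro b hb
      have h2 : (univ : Finset V).filter (fun z => z ∈ b) = b := by
        ext z
        simp only [mem_filter, mem_univ, true_and]
      rw [h2, h.2.1 b hb]
  rw [card_univ, h.1] at h1
  have h3 : (n ^ 2 + 1) * (n ^ 2 + n) = n * (n ^ 2 + 1) * (n + 1) := by ring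
  rw [h3] at h1
  exact (Nat.eq_of_mul_eq_mul_right (by omega) h1).symm

/-- exactly one circle through `x` and `y` touches `g` at `x` -/
theorem touches (hn : 2 ≤ n) (h : Inversive n B) {g : Finset V} (hg : g ∈ B) {x : V} (hx : x ∈ g)
    {y : V} (hy : y ∉ g) :
    (B.filter fun b => (x ∈ b ∧ y ∈ b) ∧ b ∩ g = {x}).card = 1 := by
  have hxy : x ≠ y := by
    rintro rfl
    exact hy hx
  have hex : ∀ z ∈ g.erase x, ∃ b, b ∈ B ∧ x ∈ b ∧ y ∈ b ∧ z ∈ b := by
    intro z hz
    rw [mem_erase] at hz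
    have hyz : y ≠ z := by
      rintro rfl
      exact hy hz.2
    obtain ⟨b, hb, h1⟩ := ex3 h x y z hxy (Ne.symm hz.1) hyz
    exact ⟨b, hb, h1⟩
  choose! f hf using hex
  have hinj : Set.InjOn f (g.erase x : Finset V) := by
    intro z hz w hw hzw
    have hz' := mem_erase.1 (mem_coe.1 hz)
    have hw' := mem_erase.1 (mem_coe.1 hw)
    by_contra hne
    obtain ⟨h1, h2, h3, h4⟩ := hf z (mem_coe.1 hz)
    obtain ⟨-, -, -, h8⟩ := hf w (mem_coe.1 hw)
    rw [← hzw] at h8
    have h9 := eq3 h x z w (Ne.symm hz'.1) (Ne.symm hw'.1) hne (f z) h1 g hg h2 h4 h8 hx hz'.2 hw'.2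
    rw [h9] at h3
    exact hy h3
  have hcard : ((g.erase x).image f).card = n := by
    rw [card_image_of_injOn hinj, card_erase_of_mem hx, h.2.1 g hg]
    omega
  have hsub : (g.erase x).image f ⊆ B.filter fun b => x ∈ b ∧ y ∈ b := by
    intro b hb
    rw [mem_image] at hb
    obtain ⟨z, hz, rfl⟩ := hb
    obtain ⟨h1, h2, h3, -⟩ := hf z hz
    exact mem_filter.2 ⟨h1, h2, h3⟩
  have heq : (B.filter fun b => (x ∈ b ∧ y ∈ b) ∧ b ∩ g = {x}) =
      (B.filter fun b => x ∈ b ∧ y ∈ b) \ (g.erase x).image f := by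
    ext b
    rw [mem_filter, mem_sdiff, mem_filter, mem_image]
    constructor
    · rintro ⟨hb, hxy', hbg⟩
      refine ⟨⟨hb, hxy'⟩, ?_⟩
      rintro ⟨z, hz, rfl⟩
      have h1 : z ∈ f z ∩ g := mem_inter.2 ⟨(hf z hz).2.2.2, (mem_erase.1 hz).2⟩
      rw [hbg, mem_singleton] at h1
      exact (mem_erase.1 hz).1 h1
    · rintro ⟨⟨hb, hxb, hyb⟩, hni⟩
      refine ⟨hb, ⟨hxb, hyb⟩, ?_⟩
      ext w
      rw [mem_inter, mem_singleton]
      constructor
      · rintro ⟨hwb, hwg⟩
        by_contra hwx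
        apply hni
        have hw : w ∈ g.erase x := mem_erase.2 ⟨hwx, hwg⟩
        refine ⟨w, hw, ?_⟩
        obtain ⟨h1, h2, h3, h4⟩ := hf w hw
        have hyw : y ≠ w := by
          rintro rfl
          exact hy hwg
        exact eq3 h x y w hxy (Ne.symm hwx) hyw (f w) h1 b hb h2 h3 h4 hxb hyb hwb
      · rintro rfl
        exact ⟨hxb, hx⟩
  rw [heq, card_sdiff_of_subset hsub, hcard, cxy hn h x y hxy]
  omega

theorem t_INC : S_INC := by
  intro V _ n B hn h
  refine ⟨h.1, h.2.1, ex3 h, eq3 h, two h, ?_, ?_, cB hn h, cx hn h, cxy hn h⟩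
  · intro g hg x hx y hy
    have h1 := touches hn h hg hx hy
    rw [card_eq_one] at h1
    obtain ⟨b, hb⟩ := h1
    have h2 : b ∈ B.filter fun b => (x ∈ b ∧ y ∈ b) ∧ b ∩ g = {x} := by
      rw [hb]
      exact mem_singleton_self b
    rw [mem_filter] at h2
    exact ⟨b, h2.1, h2.2.1.2, h2.2.2⟩
  · intro g hg x hx y hy b hb c hc hyb hbg hyc hcg
    have h1 := touches hn h hg hx hy
    have hxb : x ∈ b := by
      have : x ∈ b ∩ g := by
        rw [hbg]
        exact mem_singleton_self x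
      exact (mem_inter.1 this).1
    have hxc : x ∈ c := by
      have : x ∈ c ∩ g := by
        rw [hcg]
        exact mem_singleton_self x
      exact (mem_inter.1 this).1
    exact card_le_one.1 h1.le b (mem_filter.2 ⟨hb, ⟨hxb, hyb⟩, hbg⟩) c
      (mem_filter.2 ⟨hc, ⟨hxc, hyc⟩, hcg⟩)

end Pool.Agent.U329.MQ
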